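import Pool.Agent.W580.SH.StmA

/-!
SHA-BLK: block triangular minors (helper12).
-/

namespace Pool.Agent.W12.SH.BLK

open Pool.Agent.W580.SH

theorem main : S_BLK := by
  intro R k m κ σ c g hg
  unfold mn
  have h : (Matrix.of fun a b => Fin.append c g b (Fin.append κ σ a) :
      Matrix (Fin (k + m)) (Fin (k + m)) ℝ).submatrix finSumFinEquiv finSumFinEquiv
      = Matrix.fromBlocks (Matrix.of fun a b => c b (κ a)) 0 (Matrix.of fun a b => c b (σ a))
        (Matrix.of fun a b => g b (σ a)) := by
    ext i j
    rcases i with i | i <;> rcases j with j | j <;>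
      simp [hg]
  rw [← Matrix.det_submatrix_equiv_self finSumFinEquiv, h, Matrix.det_fromBlocks_zero₁₂]

end Pool.Agent.W12.SH.BLK
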