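import Pool.Agent.W580.SH.StmA

/-!
SHA-HALF: minors of a half integral coset are half integral (helper12).
-/

namespace Pool.Agent.W12.SH.HALF

open Pool.Agent.W580.SH

theorem main : S_HALF := by
  intro R S t ht k r c hc
  rcases k with _ | k
  · refine ⟨2, ?_⟩
    unfold mn
    rw [Matrix.det_isEmpty]
    norm_num
  choose n hn using fun (b : Fin (k + 1)) (a : Fin (k + 1)) => ht.2 (c b) (hc b) (r a)
  have hτ : ∀ a : Fin (k + 1), ∃ m : ℤ, 2 * t (r a) = m := by
    intro a
    rcases ht.1 (r a) with h | h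
    · exact ⟨0, by rw [h]; norm_num⟩
    · exact ⟨1, by rw [h]; norm_num⟩
  choose τ hτ using hτ
  set B : Matrix (Fin (k + 1)) (Fin (k + 1)) ℝ := Matrix.of fun a b => c b (r a) with hB
  set A : Matrix (Fin (k + 1)) (Fin (k + 1)) ℝ :=
    Matrix.of fun a b => B a b + (if b = 0 then 0 else -1) * B a 0 with hA
  have h1 : A.det = B.det := by
    rw [← Matrix.det_transpose A, ← Matrix.det_transpose B]
    exact Matrix.det_eq_of_forall_row_eq_smul_add_const (fun b => if b = 0 then 0 else -1) 0
      (by simp) fun i j => rfl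
  set M : Matrix (Fin (k + 1)) (Fin (k + 1)) ℤ :=
    Matrix.of fun a b => if b = 0 then τ a + 2 * n 0 a else n b a - n 0 a with hM
  have h2 : A.updateCol 0 ((2 : ℝ) • fun a => A a 0) = M.map (Int.castRingHom ℝ) := by
    ext a b
    by_cases hb : b = 0
    · subst hb
      rw [Matrix.updateCol_self]
      simp only [hA, hB, hM, Matrix.of_apply, Matrix.map_apply, if_true, Pi.smul_apply,
        smul_eq_mul, zero_mul, add_zero, Int.coe_castRingHom]
      rw [hn 0 a]
      push_cast
      rw [← hτ a]
      ring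
    · rw [Matrix.updateCol_ne hb]
      simp only [hA, hB, hM, Matrix.of_apply, Matrix.map_apply, if_neg hb, Int.coe_castRingHom]
      rw [hn b a, hn 0 a]
      push_cast
      ring
  have h3 : (A.updateCol 0 ((2 : ℝ) • fun a => A a 0)).det = 2 * A.det := by
    rw [Matrix.det_updateCol_smul]
    congr 2
    exact Matrix.updateCol_eq_self A 0
  refine ⟨M.det, ?_⟩
  change 2 * B.det = _
  rw [← h1, ← h3, h2]
  exact (RingHom.map_det (Int.castRingHom ℝ) M).symm

end Pool.Agent.W12.SH.HALF
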